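import Pool.Agent.Y165.BC.Stm

set_option autoImplicit false

open Finset

namespace Pool.Agent.Y576.BC

open Pool.Agent.Y165.BC

theorem tlt {Q R t0 u : ℕ} (ht0 : t0 < Q) (hu : u < R) : t0 + Q * u < Q * R := by
  calc t0 + Q * u < Q + Q * u := by omega
    _ = Q * (u + 1) := by ring
    _ ≤ Q * R := Nat.mul_le_mul_left _ hu

/-- low residues -/
theorem cnt_low {Q R i t0 : ℕ} (hQ : 0 < Q) (ht0 : t0 < Q) (hi : 1 ≤ i) :
    ((range R).filter fun u => (i * (t0 + Q * u)) % (Q * R) ≤ i * Q).card ≤ 2 * i := by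
  have hP : 0 < i * Q := Nat.mul_pos hi hQ
  have key : ∀ u1 u2 q : ℕ, u1 < u2 → (i * (t0 + Q * u1)) / (Q * R) = q →
      (i * (t0 + Q * u2)) / (Q * R) = q → (i * (t0 + Q * u2)) % (Q * R) ≤ i * Q → u2 ≤ u1 + 1 := by
    intro u1 u2 q h12 h1 h2 h3
    by_contra hcon
    have h4 : u1 + 2 ≤ u2 := by omega
    have h5 := Nat.mul_le_mul_left (i * Q) h4
    have e1 := Nat.div_add_mod (i * (t0 + Q * u1)) (Q * R)
    have e2 := Nat.div_add_mod (i * (t0 + Q * u2)) (Q * R)
    rw [h1] at e1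
    rw [h2] at e2
    have x1 : i * (t0 + Q * u1) = i * t0 + i * Q * u1 := by ring
    have x2 : i * (t0 + Q * u2) = i * t0 + i * Q * u2 := by ring
    have x3 : i * Q * (u1 + 2) = i * Q * u1 + i * Q + i * Q := by ring
    rw [x1] at e1
    rw [x2] at e2 h3
    omega
  have h := Finset.card_le_card_of_injOn
    (s := (range R).filter fun u => (i * (t0 + Q * u)) % (Q * R) ≤ i * Q)
    (t := range i ×ˢ range 2) (fun u => ((i * (t0 + Q * u)) / (Q * R), u % 2)) ?_ ?_
  · rw [card_product, card_range, card_range] at h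
    omega
  · intro u hu
    have hu' : u < R := by
      have := (mem_filter.1 hu).1
      simpa using this
    have hZ : 0 < Q * R := Nat.mul_pos hQ (by omega)
    simp only [coe_product, coe_range, Set.mem_prod, Set.mem_Iio]
    refine ⟨?_, Nat.mod_lt _ (by norm_num)⟩
    rw [Nat.div_lt_iff_lt_mul hZ]
    exact Nat.mul_lt_mul_of_pos_left (tlt ht0 hu') hi
  · intro u1 h1 u2 h2 heq
    simp only [Prod.mk.injEq] at heq
    have g1 := (mem_filter.1 h1).2
    have g2 := (mem_filter.1 h2).2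
    rcases lt_trichotomy u1 u2 with h | h | h
    · have := key u1 u2 _ h heq.1 rfl g2
      omega
    · exact h
    · have := key u2 u1 _ h heq.1.symm rfl g1
      omega

/-- high residues -/
theorem cnt_high {Q R i t0 : ℕ} (hQ : 0 < Q) (ht0 : t0 < Q) (hi : 1 ≤ i) :
    ((range R).filter fun u => Q * R < (i * (t0 + Q * u)) % (Q * R) + i * Q).card ≤ i := by
  have hP : 0 < i * Q := Nat.mul_pos hi hQ
  have key : ∀ u1 u2 q : ℕ, u1 < u2 → 0 < Q * R → (i * (t0 + Q * u1)) / (Q * R) = q →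
      (i * (t0 + Q * u2)) / (Q * R) = q → Q * R < (i * (t0 + Q * u1)) % (Q * R) + i * Q →
      False := by
    intro u1 u2 q h12 hZ h1 h2 h3
    have h5 := Nat.mul_le_mul_left (i * Q) (Nat.succ_le_of_lt h12)
    have e1 := Nat.div_add_mod (i * (t0 + Q * u1)) (Q * R)
    have e2 := Nat.div_add_mod (i * (t0 + Q * u2)) (Q * R)
    have e3 := Nat.mod_lt (i * (t0 + Q * u2)) hZ
    rw [h1] at e1
    rw [h2] at e2
    have x1 : i * (t0 + Q * u1) = i * t0 + i * Q * u1 := by ring
    have x2 : i * (t0 + Q * u2) = i * t0 + i * Q * u2 := by ring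
    have x3 : i * Q * (u1 + 1) = i * Q * u1 + i * Q := by ring
    rw [x1] at e1 h3
    rw [x2] at e2 e3
    rw [Nat.succ_eq_add_one, x3] at h5
    omega
  have h := Finset.card_le_card_of_injOn
    (s := (range R).filter fun u => Q * R < (i * (t0 + Q * u)) % (Q * R) + i * Q)
    (t := range i) (fun u => (i * (t0 + Q * u)) / (Q * R)) ?_ ?_
  · rwa [card_range] at h
  · intro u hu
    have hu' : u < R := by
      have := (mem_filter.1 hu).1
      simpa using this
    have hZ : 0 < Q * R := Nat.mul_pos hQ (by omega)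
    simp only [coe_range, Set.mem_Iio]
    rw [Nat.div_lt_iff_lt_mul hZ]
    exact Nat.mul_lt_mul_of_pos_left (tlt ht0 hu') hi
  · intro u1 h1 u2 h2 heq
    have hu' : u1 < R := by
      have := (mem_filter.1 h1).1
      simpa using this
    have hZ : 0 < Q * R := Nat.mul_pos hQ (by omega)
    have g1 := (mem_filter.1 h1).2
    have g2 := (mem_filter.1 h2).2
    rcases lt_trichotomy u1 u2 with h | h | h
    · exact (key u1 u2 _ h hZ heq rfl g1).elim
    · exact h
    · exact (key u2 u1 _ h hZ heq.symm rfl g2).elim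

/-- reflection -/
theorem refl_mod {i t t' Z Q : ℕ} {e : ℤ} (h : (t : ℤ) + t' = Z + e) (he1 : -(Q : ℤ) ≤ e)
    (he2 : e ≤ Q) (h1 : i * Q < (i * t) % Z) (h2 : (i * t) % Z + i * Q ≤ Z) :
    (((i * t') % Z : ℕ) : ℤ) = Z - ((i * t) % Z : ℕ) + i * e := by
  set A := (i * t) % Z with hA
  have e1 := Nat.div_add_mod (i * t) Z
  rw [← hA] at e1
  set q := (i * t) / Z with hq
  have b1 : -((i : ℤ) * Q) ≤ i * e := by
    have := mul_le_mul_of_nonneg_left he1 (Int.natCast_nonneg i)
    linarith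
  have b2 : (i : ℤ) * e ≤ i * Q := mul_le_mul_of_nonneg_left he2 (Int.natCast_nonneg i)
  have h1' : (i : ℤ) * Q < A := by exact_mod_cast h1
  have h2' : (A : ℤ) + i * Q ≤ Z := by exact_mod_cast h2
  have e1' : (Z : ℤ) * q + A = i * t := by exact_mod_cast e1
  have e2 : ((i * t' : ℕ) : ℤ) = ((Z : ℤ) - A + i * e) + Z * ((i : ℤ) - 1 - q) := by
    have : (t' : ℤ) = Z + e - t := by linarith
    push_cast
    rw [this]
    linear_combination e1'
  rw [Int.natCast_mod, e2, Int.add_mul_emod_self_left]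
  exact Int.emod_eq_of_lt (by linarith) (by linarith)

theorem t_BLK : BLK := by
  intro Q R m j t0 hQ ht0 hj hjm hmR
  obtain ⟨k, rfl⟩ : ∃ k, m = j + k := ⟨m - j, by omega⟩
  have hk : 1 ≤ k := by omega
  have hsub : j + k - j = k := by omega
  rw [hsub]
  set C := (range R).filter fun u =>
    Q * R ≤ (j * (t0 + Q * u)) % (Q * R) + (k * (t0 + Q * u)) % (Q * R) with hC
  set B1 := (range R).filter fun u => (j * (t0 + Q * u)) % (Q * R) ≤ j * Q with hB1
  set B2 := (range R).filter fun u => (k * (t0 + Q * u)) % (Q * R) ≤ k * Q with hB2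
  set B3 := (range R).filter fun u =>
    Q * R < ((j + k) * (t0 + Q * u)) % (Q * R) + (j + k) * Q with hB3
  have c1 : B1.card ≤ 2 * j := cnt_low hQ ht0 hj
  have c2 : B2.card ≤ 2 * k := cnt_low hQ ht0 hk
  have c3 : B3.card ≤ j + k := cnt_high hQ ht0 (by omega)
  have hcov : range R ⊆ C ∪ (C.image (fun u => R - 1 - u) ∪ (B1 ∪ (B2 ∪ B3))) := by
    intro u hu
    have hu' : u < R := mem_range.1 hu
    have hZ : 0 < Q * R := Nat.mul_pos hQ (by omega)
    by_cases hc : Q * R ≤ (j * (t0 + Q * u)) % (Q * R) + (k * (t0 + Q * u)) % (Q * R)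
    · exact mem_union_left _ (mem_filter.2 ⟨hu, hc⟩)
    refine mem_union_right _ ?_
    by_cases h1 : (j * (t0 + Q * u)) % (Q * R) ≤ j * Q
    · exact mem_union_right _ (mem_union_left _ (mem_filter.2 ⟨hu, h1⟩))
    by_cases h2 : (k * (t0 + Q * u)) % (Q * R) ≤ k * Q
    · exact mem_union_right _ (mem_union_right _ (mem_union_left _ (mem_filter.2 ⟨hu, h2⟩)))
    by_cases h3 : Q * R < ((j + k) * (t0 + Q * u)) % (Q * R) + (j + k) * Q
    · exact mem_union_right _ (mem_union_right _ (mem_union_right _ (mem_filter.2 ⟨hu, h3⟩)))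
    refine mem_union_left _ (mem_image.2 ⟨R - 1 - u, ?_, by omega⟩)
    push Not at hc h1 h2 h3
    have hsum : ((j + k) * (t0 + Q * u)) % (Q * R) =
        (j * (t0 + Q * u)) % (Q * R) + (k * (t0 + Q * u)) % (Q * R) := by
      rw [add_mul, Nat.add_mod, Nat.mod_eq_of_lt hc]
    rw [hsum, add_mul] at h3
    refine mem_filter.2 ⟨mem_range.2 (by omega), ?_⟩
    have hrefl : ((t0 + Q * u : ℕ) : ℤ) + ((t0 + Q * (R - 1 - u) : ℕ) : ℤ) =
        ((Q * R : ℕ) : ℤ) + (2 * t0 - Q) := by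
      have : ((R - 1 - u : ℕ) : ℤ) = (R : ℤ) - 1 - u := by omega
      push_cast [this]
      ring
    have he1 : -(Q : ℤ) ≤ 2 * t0 - Q := by linarith [Int.natCast_nonneg t0]
    have he2 : (2 * t0 - Q : ℤ) ≤ Q := by
      have : (t0 : ℤ) < Q := by exact_mod_cast ht0
      linarith
    have a1 := refl_mod (i := j) hrefl he1 he2 h1 (by omega)
    have a2 := refl_mod (i := k) hrefl he1 he2 h2 (by omega)
    have goal : ((Q * R : ℕ) : ℤ) ≤ (((j * (t0 + Q * (R - 1 - u))) % (Q * R) : ℕ) : ℤ) +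
        (((k * (t0 + Q * (R - 1 - u))) % (Q * R) : ℕ) : ℤ) := by
      rw [a1, a2]
      have h3' : (((j * (t0 + Q * u)) % (Q * R) : ℕ) : ℤ) +
          (((k * (t0 + Q * u)) % (Q * R) : ℕ) : ℤ) + (j * Q + k * Q) ≤ ((Q * R : ℕ) : ℤ) := by
        exact_mod_cast h3
      have b1 : -((j : ℤ) * Q) ≤ j * (2 * t0 - Q) := by
        have := mul_le_mul_of_nonneg_left he1 (Int.natCast_nonneg j)
        linarith
      have b2 : -((k : ℤ) * Q) ≤ k * (2 * t0 - Q) := by
        have := mul_le_mul_of_nonneg_left he1 (Int.natCast_nonneg k)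
        linarith
      linarith
    exact_mod_cast goal
  have h := Finset.card_le_card hcov
  rw [card_range] at h
  have u1 := Finset.card_union_le C (C.image (fun u => R - 1 - u) ∪ (B1 ∪ (B2 ∪ B3)))
  have u2 := Finset.card_union_le (C.image (fun u => R - 1 - u)) (B1 ∪ (B2 ∪ B3))
  have u3 := Finset.card_union_le B1 (B2 ∪ B3)
  have u4 := Finset.card_union_le B2 B3
  have u5 := Finset.card_image_le (s := C) (f := fun u => R - 1 - u)
  omega

end Pool.Agent.Y576.BC
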